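import Pool.Agent.Helper96.GU.MaxF

/-!
# MP_2c90c1_al: units of `Inv⟨A | r = 1⟩`, a letter with at most one non-maximal place

For every finite alphabet and every cyclically reduced word `r`: if some letter occurs exactly once
or twice in `r`, or, more generally, if some letter occurs in `r` and all its places but at most
one are maximal, then the group of units of `Inv⟨A | r = 1⟩` is a one-relator group.  A place of
`r` is maximal if no copy of `r` which begins at a right unit which is not a unit traverses, at
this place, an edge of the copy of `r` which begins at `1` (in the graph of right units).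

The conclusion is the one of the frozen statement S01049.

Outline of the proof.  Let `r` be no proper power (proper powers are settled by project UT).  Let `H`
be the subgroup of the free group which is generated by the quotients of the prefixes of `r` which
differ by a unit; the group of units is the quotient of `H` by `H ∩ N`, where `N` is the set of
the elements with the value `1` in the graph of right units, and `N` is generated by the conjugates
of `r` by words which are right units.  Let `w ∈ H ∩ N`.  There is a finite complex over the graph of
right units with vanishing first rational homology in which the path of `w` is closed.  With a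
stacking of `r` one finds a cell whose lowest edge of the letter `a` is free.  If the place of this
edge is maximal and the path of `w` uses it then the cell begins at a unit, and the path can be
pushed off the cell.  So the cell can be removed, and `w` is in the normal closure of `r` in `H` by
induction.
-/

set_option autoImplicit false

namespace Pool.Agent.Results.MP_2c90c1_al.MaximalPlaces

open Pool.Agent.Helper96.UT hiding StTOP TopV TopE tht Bd VC EC
open Pool.Agent.Helper96.GU

theorem result :
    ∀ (m : ℕ) (r : FreeMonoid (Fin m × Bool)),
      (∀ p ∈ (FreeMonoid.toList r).zip (FreeMonoid.toList r).tail,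
          ¬ (p.1.1 = p.2.1 ∧ p.1.2 ≠ p.2.2)) →
      (∀ a b : Fin m × Bool, (FreeMonoid.toList r).head? = some a →
          (FreeMonoid.toList r).getLast? = some b → ¬ (a.1 = b.1 ∧ a.2 ≠ b.2)) →
      (∃ a : Fin m, 1 ≤ (FreeMonoid.toList r).countP (fun x => x.1 = a) ∧
        ((FreeMonoid.toList r).countP (fun x => x.1 = a) ≤ 2 ∨
          ∀ i j : ℕ, i ≠ j → ((FreeMonoid.toList r)[i]?.map Prod.fst) = some a →
            ((FreeMonoid.toList r)[j]?.map Prod.fst) = some a → MaxPlace r i ∨ MaxPlace r j)) →
      ∃ (n : ℕ) (s : FreeGroup (Fin n)),
        Nonempty (Units (conGen (fun x y : FreeMonoid (Fin m × Bool) =>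
            (∃ w : FreeMonoid (Fin m × Bool),
                x = w * FreeMonoid.ofList
                      ((FreeMonoid.toList w).reverse.map (fun p => (p.1, !p.2))) * w
                ∧ y = w) ∨
            (∃ u w : FreeMonoid (Fin m × Bool),
                x = u * FreeMonoid.ofList
                      ((FreeMonoid.toList u).reverse.map (fun p => (p.1, !p.2)))
                      * (w * FreeMonoid.ofList
                          ((FreeMonoid.toList w).reverse.map (fun p => (p.1, !p.2))))
                ∧ y = w * FreeMonoid.ofList
                      ((FreeMonoid.toList w).reverse.map (fun p => (p.1, !p.2)))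
                      * (u * FreeMonoid.ofList
                          ((FreeMonoid.toList u).reverse.map (fun p => (p.1, !p.2))))) ∨
            (x = r ∧ y = 1))).Quotient
          ≃* PresentedGroup ({s} : Set (FreeGroup (Fin n)))) := by
  rintro m r h1 h2 ⟨a, ha1, ha2⟩
  refine guFinal (tIM2 tIM1) aPSI aRIG tGEN tFGF tPRES tEXZ aIND aRTZ r h1 h2 ?_
  intro Z hr _ _
  rcases ha2 with ha2 | ha2
  · exact gfLetter tFGF tPRES fHPF fHPS fINH fCHO fCTP r a ha1 ha2 Z hr
  · refine gfMax r a ?_ ha2 Z hr
    obtain ⟨x, hx, hxa⟩ := List.countP_pos_iff.1 (Nat.lt_of_lt_of_le Nat.zero_lt_one ha1)
    obtain ⟨i, hi, rfl⟩ := List.mem_iff_getElem.1 hx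
    refine ⟨i, ?_⟩
    rw [List.getElem?_eq_getElem hi]
    simpa using hxa

end Pool.Agent.Results.MP_2c90c1_al.MaximalPlaces
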