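import Pool.Agent.Helper84.OX.All

/-!
# MP_2c90c1_al: units of `Inv⟨A | r = 1⟩` and ordered heights

For every finite alphabet `A` and every cyclically reduced word `r`: if the free group `F(A)` acts by
order automorphisms on a totally ordered set `X` with a point `x₀` such that `r x₀ = x₀` and
`p x₀ ≥ x₀` for every initial part `p` of `r`, with equality only if `p` is invertible in
`Inv⟨A | r = 1⟩`, then the group of units of `Inv⟨A | r = 1⟩` is a one-relator group.

The conclusion is the one of the frozen statement S01049.

Outline of the proof.  Let `r` be no proper power (proper powers are settled by project UT).  The height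
of a position of `r` is the point `p x₀`, `p` the initial part of `r` before it.  Let `H` be the subgroup of the free
group which is generated by the quotients of the prefixes of `r` which differ by a unit; the group of units is the
quotient of `H` by `H ∩ N`, where `N` is the set of the elements with the value `1` in the graph of right
units, and `N` is generated by the conjugates of `r` by words which are right units.  Let `w ∈ H ∩ N`.  There is a
finite complex `C` over the graph of right units with vanishing first rational homology in which the path of
`w` is closed.  Its 2-cells are lifted to the product of the complex with `X`, with base point at the height `x₀`.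
Ordering the steps of `r` by the height, and by a stacking for equal heights, gives again a stacking.
An Euler characteristic count, in which the highest lifts of the vertices and edges of `C` are counted, shows that
the component of the base point contains no vertex over a vertex of `C` below its highest lift, and that its closed
paths are products of conjugates of `r` in the lifted complex.  The cells of this component begin at units,
so `w` is in the normal closure of `r` in `H`.
-/

set_option autoImplicit false

namespace Pool.Agent.Results.MP_2c90c1_al.OrderedHeights

open Pool.Agent.Helper96.UT hiding StTOP TopV TopE tht Bd VC EC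
open Pool.Agent.Helper96.GU
open Pool.Agent.Helper84.OX

theorem result :
    ∀ (m : ℕ) (r : FreeMonoid (Fin m × Bool)),
      (∀ p ∈ (FreeMonoid.toList r).zip (FreeMonoid.toList r).tail,
          ¬ (p.1.1 = p.2.1 ∧ p.1.2 ≠ p.2.2)) →
      (∀ a b : Fin m × Bool, (FreeMonoid.toList r).head? = some a →
          (FreeMonoid.toList r).getLast? = some b → ¬ (a.1 = b.1 ∧ a.2 ≠ b.2)) →
      (∃ (X : Type) (_ : LinearOrder X) (_ : MulAction (FreeGroup (Fin m)) X) (x₀ : X),
        (∀ (g : FreeGroup (Fin m)) (x y : X), x ≤ y → g • x ≤ g • y) ∧
        FreeGroup.mk (FreeMonoid.toList r) • x₀ = x₀ ∧
        ∀ j : ℕ, x₀ ≤ FreeGroup.mk ((FreeMonoid.toList r).take j) • x₀ ∧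
          (FreeGroup.mk ((FreeMonoid.toList r).take j) • x₀ = x₀ →
            IsUnit (io r ((FreeMonoid.toList r).take j)))) →
      ∃ (n : ℕ) (s : FreeGroup (Fin n)),
        Nonempty (Units (conGen (fun x y : FreeMonoid (Fin m × Bool) =>
            (∃ w : FreeMonoid (Fin m × Bool),
                x = w * FreeMonoid.ofList
                      ((FreeMonoid.toList w).reverse.map (fun p => (p.1, !p.2))) * w
                ∧ y = w) ∨
            (∃ u w : FreeMonoid (Fin m × Bool),
                x = u * FreeMonoid.ofList
                      ((FreeMonoid.toList u).reverse.map (fun p => (p.1, !p.2)))
                      * (w * FreeMonoid.ofList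
                          ((FreeMonoid.toList w).reverse.map (fun p => (p.1, !p.2))))
                ∧ y = w * FreeMonoid.ofList
                      ((FreeMonoid.toList w).reverse.map (fun p => (p.1, !p.2)))
                      * (u * FreeMonoid.ofList
                          ((FreeMonoid.toList u).reverse.map (fun p => (p.1, !p.2))))) ∨
            (x = r ∧ y = 1))).Quotient
          ≃* PresentedGroup ({s} : Set (FreeGroup (Fin n)))) := by
  rintro m r h1 h2 ⟨X, _, _, x₀, hmono, hfix, hpos⟩
  refine guFinal (tIM2 tIM1) aPSI aRIG tGEN tFGF tPRES tEXZ aIND aRTZ r h1 h2 ?_
  intro Z hr _ _
  exact oxMain aHNS r Z hr X x₀ hmono hfix hpos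

end Pool.Agent.Results.MP_2c90c1_al.OrderedHeights
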