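import Pool.Agent.Helper96.UT.M_STK1
import Pool.Agent.Helper96.UT.M_STK2
import Pool.Agent.Helper96.UT.M_STK
import Pool.Agent.Helper96.UT.M_LIN
import Pool.Agent.Helper96.UT.M_TOP
import Pool.Agent.Helper96.UT.M_ARC
import Pool.Agent.Helper96.UT.M_GOOD
import Pool.Agent.Helper96.UT.M_FREE
import Pool.Agent.Helper96.UT.M_PER
import Pool.Agent.Helper96.UT.M_CNT
import Pool.Agent.Helper96.UT.M_REM
import Pool.Agent.Helper96.UT.M_COV
import Pool.Agent.Helper96.UT.M_FWD
import Pool.Agent.Helper96.UT.M_STEP
import Pool.Agent.Helper96.UT.M_IND
import Pool.Agent.Helper96.UT.M_EXZ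
import Pool.Agent.Helper96.UT.M_IM1
import Pool.Agent.Helper96.UT.M_IM2
import Pool.Agent.Helper96.UT.M_PSI
import Pool.Agent.Helper96.UT.M_RIG
import Pool.Agent.Helper96.UT.M_GEN
import Pool.Agent.Helper96.UT.M_ROOT
import Pool.Agent.Helper96.UT.M_FGF
import Pool.Agent.Helper96.UT.M_PRES
import Pool.Agent.Helper96.UT.Fin

/-!
# MP_2c90c1_al: units of `Inv⟨A | u^k = 1⟩`, `k ≥ 2`

For every finite alphabet, every `k ≥ 2` and every word `u` such that `r = u^k` is cyclically
reduced, the group of units of the inverse monoid `Inv⟨A | r = 1⟩` is a one-relator group; more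
precisely it is isomorphic to `⟨B | s^k⟩` for a finite set `B` and some `s`.

The statement is the one of the frozen statement S01049, restricted to proper powers `r`, with the
additional information that the relator is again a `k`-th power.

Outline of the proof.  Let `H` be the subgroup of the free group `F` generated by the prefixes of `r`
which are units of the inverse monoid.  The group of units is a quotient of `H`, by a normal
subgroup contained in the normal closure of `r` in `F`.  We show that every element of `H` in the
normal closure of `r` in `F` is in the normal closure of `r` in `H`.  This is a version of the spelling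
theorem of B. B. Newman, and is proved by counting (with a stacking of the root of `r`) in finite
complexes over the presentation with trivial first homology.
-/

set_option autoImplicit false

namespace Pool.Agent.Results.MP_2c90c1_al.ProperPowers

open Pool.Agent.Helper96.UT

theorem result :
    ∀ (m : ℕ) (r u : FreeMonoid (Fin m × Bool)) (k : ℕ), 2 ≤ k → r = u ^ k →
      (∀ p ∈ (FreeMonoid.toList r).zip (FreeMonoid.toList r).tail,
          ¬ (p.1.1 = p.2.1 ∧ p.1.2 ≠ p.2.2)) →
      (∀ a b : Fin m × Bool, (FreeMonoid.toList r).head? = some a →
          (FreeMonoid.toList r).getLast? = some b → ¬ (a.1 = b.1 ∧ a.2 ≠ b.2)) →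
      ∃ (n : ℕ) (s : FreeGroup (Fin n)),
        Nonempty (Units (conGen (fun x y : FreeMonoid (Fin m × Bool) =>
            (∃ w : FreeMonoid (Fin m × Bool),
                x = w * FreeMonoid.ofList
                      ((FreeMonoid.toList w).reverse.map (fun p => (p.1, !p.2))) * w
                ∧ y = w) ∨
            (∃ u w : FreeMonoid (Fin m × Bool),
                x = u * FreeMonoid.ofList
                      ((FreeMonoid.toList u).reverse.map (fun p => (p.1, !p.2)))
                      * (w * FreeMonoid.ofList
                          ((FreeMonoid.toList w).reverse.map (fun p => (p.1, !p.2))))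
                ∧ y = w * FreeMonoid.ofList
                      ((FreeMonoid.toList w).reverse.map (fun p => (p.1, !p.2)))
                      * (u * FreeMonoid.ofList
                          ((FreeMonoid.toList u).reverse.map (fun p => (p.1, !p.2))))) ∨
            (x = r ∧ y = 1))).Quotient
          ≃* PresentedGroup ({s ^ k} : Set (FreeGroup (Fin n)))) := by
  intro m r u k hk hr h1 h2
  subst hr
  have hSTK2 := tSTK2 tSTK1
  have hSTK := tSTK hSTK2
  have hGOOD := tGOOD hSTK tLIN tTOP tARC
  have hPER := tPER tFREE
  have hCNT := tCNT hGOOD hPER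
  have hREM := tREM tFREE hPER
  have hFWD := tFWD tCOV
  have hSTEP := tSTEP tFREE hPER hREM hFWD
  have hIND := tIND hCNT hREM tCOV hSTEP
  have hIM2 := tIM2 tIM1
  have hPSI := tPSI tIM1 hIM2
  have hRIG := tRIG tIM1 hPSI
  exact utFinal hIM2 hPSI hRIG tGEN tROOT tFGF tPRES tEXZ hIND u k hk h1 h2

end Pool.Agent.Results.MP_2c90c1_al.ProperPowers
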