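import Pool.Agent.Helper96.GU.All

/-!
# MP_2c90c1_al: units of `Inv⟨A | r = 1⟩`, the invertible prefixes generate a group of rank at most two

For every finite alphabet and every cyclically reduced word `r`: let `HU r` be the subgroup of the
free group on `A` which is generated by the prefixes of `r` which are invertible in
`Inv⟨A | r = 1⟩`.  If `HU r` is generated by two elements then the group of units of
`Inv⟨A | r = 1⟩` is a one-relator group.  (`HU r` is generated by the minimal invertible pieces of
`r`, so the hypothesis holds if there are at most two of them, up to inversion.)

The conclusion is the one of the frozen statement S01049.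

Outline of the proof.  Let `L = HU r`, `s` the element `r` of `L`, `r` not a proper power (proper
powers are settled by project UT).  The group of units is a quotient of `L` by a subgroup contained
in the normal closure of `s` in the free group `F`.  Let `w ∈ L` be in the normal closure of `s` in
`F`.  We choose a finite complex over the presentation, with a distinguished cell `s`, in which
`w` is a product of conjugates of cells and the first homology is generated by `L`, with the
minimal number of cells.  With a stacking of `r` one sees that either the distinguished cell has a
free edge, and then `L` modulo the normal closure of `s` in `L` is free of rank at most one, or the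
Euler characteristic is at most `0`, and then there is no relation between `H₁(L)` and the other
cells.  This property passes to infinite cyclic covers, so it holds at the top of a Howie tower for
`w`, where it implies that the first homology of the pullback of the graph of `L` is generated by
distinguished cells.  The pullback collapses, and `w` is in the normal closure of `s` in `L`.
-/

set_option autoImplicit false

namespace Pool.Agent.Results.MP_2c90c1_al.TwoGenerated

open Pool.Agent.Helper96.UT Pool.Agent.Helper96.GU

theorem result :
    ∀ (m : ℕ) (r : FreeMonoid (Fin m × Bool)),
      (∀ p ∈ (FreeMonoid.toList r).zip (FreeMonoid.toList r).tail,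
          ¬ (p.1.1 = p.2.1 ∧ p.1.2 ≠ p.2.2)) →
      (∀ a b : Fin m × Bool, (FreeMonoid.toList r).head? = some a →
          (FreeMonoid.toList r).getLast? = some b → ¬ (a.1 = b.1 ∧ a.2 ≠ b.2)) →
      (∃ h₁ h₂ : FreeGroup (Fin m), HU r = Subgroup.closure {h₁, h₂}) →
      ∃ (n : ℕ) (s : FreeGroup (Fin n)),
        Nonempty (Units (conGen (fun x y : FreeMonoid (Fin m × Bool) =>
            (∃ w : FreeMonoid (Fin m × Bool),
                x = w * FreeMonoid.ofList
                      ((FreeMonoid.toList w).reverse.map (fun p => (p.1, !p.2))) * w
                ∧ y = w) ∨
            (∃ u w : FreeMonoid (Fin m × Bool),
                x = u * FreeMonoid.ofList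
                      ((FreeMonoid.toList u).reverse.map (fun p => (p.1, !p.2)))
                      * (w * FreeMonoid.ofList
                          ((FreeMonoid.toList w).reverse.map (fun p => (p.1, !p.2))))
                ∧ y = w * FreeMonoid.ofList
                      ((FreeMonoid.toList w).reverse.map (fun p => (p.1, !p.2)))
                      * (u * FreeMonoid.ofList
                          ((FreeMonoid.toList u).reverse.map (fun p => (p.1, !p.2))))) ∨
            (x = r ∧ y = 1))).Quotient
          ≃* PresentedGroup ({s} : Set (FreeGroup (Fin n)))) := by
  rintro m r h1 h2 ⟨a, b, hL⟩
  exact guFinal (tIM2 tIM1) aPSI aRIG tGEN tFGF tPRES tEXZ aIND aRTZ r h1 h2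
    (guTwo aPSI tFGF tPRES aCYG aFLA r a b hL)

end Pool.Agent.Results.MP_2c90c1_al.TwoGenerated
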